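import Pool.Agent.helper76.UFG.Spec

set_option autoImplicit false

namespace Pool.Agent.UFG

open Finset NumberField nonZeroDivisors Pool.Agent.UF

theorem ASC : ASC_stmt := by
  intro A B _ _ _ _ I δ s hs hI
  have hc : (s : B →+* B).comp (algebraMap A B) = algebraMap A B := RingHom.ext hs
  have h1 : Ideal.map (s : B →+* B) (I.map (algebraMap A B)) = I.map (algebraMap A B) := by
    rw [Ideal.map_map, hc]
  rw [hI, Ideal.map_span, Set.image_singleton] at h1
  exact Ideal.span_singleton_eq_span_singleton.mp h1

end Pool.Agent.UFG
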