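import Pool.Agent.helper76.UFG.Spec

set_option autoImplicit false

namespace Pool.Agent.UFG

open Finset NumberField nonZeroDivisors Pool.Agent.UF

private theorem CP1_ff {R : Type} [CommRing R] (x : R) : ff 2 x 1 = 2 - x := by
  simp [ff]

private theorem CP1_prime {m : ℕ} (hm : m < 4) : (fer m).Prime := by
  unfold fer
  interval_cases m <;> norm_num

private theorem CP1_bar {R : Type} [CommRing R] {m : ℕ} {x : R} (b : R ≃+* R) (hb : b x * x = 1)
    (hx : x ^ (2 ^ m) = -1) : b x = x ^ (2 ^ (m + 1) - 1) := by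
  have h1 : x ^ (2 ^ (m + 1)) = 1 := by
    rw [pow_succ, pow_mul, hx]
    norm_num
  have h2 : x ^ (2 ^ (m + 1) - 1) * x = 1 := by
    rw [← pow_succ, Nat.sub_add_cancel Nat.one_le_two_pow, h1]
  calc b x = b x * (x ^ (2 ^ (m + 1) - 1) * x) := by rw [h2, mul_one]
    _ = (b x * x) * x ^ (2 ^ (m + 1) - 1) := by ring
    _ = x ^ (2 ^ (m + 1) - 1) := by rw [hb, one_mul]

private theorem CP1_cop (h3 : CPR_stmt) {R : Type} [CommRing R] {m : ℕ} (hm : 4 ≤ m) {x : R}
    (b : R ≃+* R) (hb : b x * x = 1) (hx : x ^ (2 ^ m) = -1) : IsCoprime (2 - x) (2 - b x) := by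
  have h5 : (2 : ℕ) ^ 5 ≤ 2 ^ (m + 1) := Nat.pow_le_pow_right (by norm_num) (by omega)
  have hodd : Odd (2 ^ (m + 1) - 1) := by
    refine ⟨2 ^ m - 1, ?_⟩
    have h6 : (2 : ℕ) ^ (m + 1) = 2 * 2 ^ m := by rw [pow_succ]; ring
    have h7 : 1 ≤ (2 : ℕ) ^ m := Nat.one_le_two_pow
    omega
  have h1 := h3 m 0 R x hx 1 (2 ^ (m + 1) - 1) odd_one hodd (by
    intro hdvd
    have hc : ((2 ^ (m + 1) - 1 : ℕ) : ℤ) = 2 ^ (m + 1) - 1 := by
      rw [Nat.cast_sub Nat.one_le_two_pow]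
      push_cast
      rfl
    rw [hc] at hdvd
    have h8 : (2 : ℤ) ^ (m + 1) ∣ 2 := by
      have h9 : (2 : ℤ) = (((1 : ℕ) : ℤ) - (2 ^ (m + 1) - 1)) + 2 ^ (m + 1) := by
        push_cast
        ring
      rw [h9]
      have h10 := dvd_add hdvd (dvd_refl ((2 : ℤ) ^ (m + 1)))
      rwa [← h9] at h10 ⊢
    have h9 := Int.le_of_dvd (by norm_num) h8
    have h10 : ((2 : ℤ)) ^ (m + 1) = ((2 ^ (m + 1) : ℕ) : ℤ) := by push_cast; rfl
    rw [h10] at h9
    omega)
  have e1 : ff (2 ^ (2 ^ 0)) x 1 = 2 - x := by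
    simp [ff]
  have e2 : ff (2 ^ (2 ^ 0)) x (2 ^ (m + 1) - 1) = 2 - b x := by
    rw [CP1_bar b hb hx]
    simp [ff]
  rwa [e1, e2] at h1

theorem CP1 (hBAS : BAS_stmt) (hBIN : BIN_stmt) (hCPR : CPR_stmt) (hU : U_stmt) (hPRI : PRI_stmt)
    (hEXP : EXP_stmt) (hDSC : DSC_stmt) : CP1_stmt := by
  intro m n K L _ _ _ _ _ _ _ z hz hn hMn I hI hpr
  by_cases hm : m < 4
  · have hP := hPRI m K z hz (CP1_prime hm)
    have hP' : (Ideal.span {(2 - z : 𝓞 K)}).IsPrime := (Ideal.span_singleton_prime hP.ne_zero).mpr hP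
    have hbot : Ideal.span {(2 - z : 𝓞 K)} ≠ ⊥ := by
      rw [Ne, Ideal.span_singleton_eq_bot]
      exact hP.ne_zero
    have hmax : (Ideal.span {(2 - z : 𝓞 K)}).IsMaximal := hP'.isMaximal hbot
    have hle : Ideal.span {(2 - z : 𝓞 K)} ≤ I := Ideal.le_of_dvd hI
    by_cases hT : I = ⊤
    · exact Or.inl hT
    · exact Or.inr (hmax.eq_of_le hT hle).symm
  · have hm4 : 4 ≤ m := by omega
    have hcyc : Cyc (2 ^ m) z := hBAS m K z hz
    obtain ⟨b, hb, -⟩ := hBIN (2 ^ m) (𝓞 K) z Nat.one_le_two_pow hcyc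
    have hne : (2 - z : 𝓞 K) ≠ 0 := by
      intro h0
      have h1 : z = 2 := (sub_eq_zero.mp h0).symm
      have h2 := hcyc.1.1
      rw [h1] at h2
      have h3 : ((2 ^ 2 ^ m + 1 : ℕ) : 𝓞 K) = 0 := by
        push_cast
        rw [h2]
        ring
      exact (Nat.cast_ne_zero.mpr (Nat.succ_ne_zero _)) h3
    have h16 : (2 : ℕ) ^ 4 ≤ 2 ^ m := Nat.pow_le_pow_right (by norm_num) hm4
    have hdsc := hDSC m n K L z b (by omega) hz hb hn hMn (2 - z) I hne hI (by
      intro p hp _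
      obtain ⟨P, h1, h2, h3⟩ := hEXP m 0 K L z b hz hb {1} (by simp) (by
        rw [Multiset.card_singleton]
        omega) p hp
      refine ⟨P, h1, h2, ?_⟩
      have h4 : ((({1} : Multiset ℕ).map (ff (2 ^ (2 ^ 0)) z)).prod : 𝓞 K) = 2 - z := by
        rw [Multiset.map_singleton, Multiset.prod_singleton]
        simp [ff]
      rwa [h4] at h3) hpr
    obtain ⟨ρ, hρ, hρI⟩ := hdsc
    obtain ⟨c, hc⟩ := hcyc.2.1 ρ
    have hbf : b (2 - z) = 2 - b z := by
      rw [map_sub, map_ofNat]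
    rw [hbf] at hρ
    obtain ⟨j, hj⟩ := hU m (𝓞 K) z b hm4 hcyc.1 hb c ρ hc hρ
    have hcop := CP1_cop hCPR hm4 b hb.1 hcyc.1.1
    have hzu : IsUnit (z ^ j) := (hz.isUnit (by positivity)).pow j
    obtain ⟨Q, hQ⟩ := hI
    have hspan0 : Ideal.span {(2 - z : 𝓞 K)} ≠ 0 := by
      rw [Ideal.zero_eq_bot, Ne, Ideal.span_singleton_eq_bot]
      exact hne
    have hI0 : I ≠ 0 := by
      rintro rfl
      rw [zero_mul] at hQ
      exact hspan0 hQ
    have hmapb : ∀ J : Ideal (𝓞 K), J.map b = Ideal.map (b : 𝓞 K →+* 𝓞 K) J := fun J => rfl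
    have hbQ : I.map b * Q.map b = Ideal.span {(2 - b z : 𝓞 K)} := by
      have h1 := congrArg (Ideal.map b) hQ
      rw [Ideal.map_mul, Ideal.map_span, Set.image_singleton, hbf] at h1
      exact h1.symm
    have hcopI : IsCoprime (Ideal.span {(2 - z : 𝓞 K)}) (Ideal.span {(2 - b z : 𝓞 K)}) :=
      (Ideal.isCoprime_span_singleton_iff _ _).mpr hcop
    rcases hj with hj | hj
    · -- `(ρ) = (2 - z)`
      left
      have h1 : Ideal.span {ρ} = Ideal.span {(2 - z : 𝓞 K)} := by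
        rw [hj]
        exact Ideal.span_singleton_mul_left_unit hzu _
      rw [h1, mul_comm] at hρI
      have h2 : I = I.map b := mul_right_cancel₀ hspan0 hρI
      have h3 : I ∣ Ideal.span {(2 - z : 𝓞 K)} := ⟨Q, hQ⟩
      have h4 : I ∣ Ideal.span {(2 - b z : 𝓞 K)} := by
        rw [h2]
        exact ⟨_, hbQ.symm⟩
      have h5 : IsUnit I := hcopI.isUnit_of_dvd' h3 h4
      exact Ideal.isUnit_iff.mp h5
    · right
      have h1 : Ideal.span {ρ} = Ideal.span {(2 - b z : 𝓞 K)} := by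
        rw [hj]
        exact Ideal.span_singleton_mul_left_unit hzu _
      have hbI0 : I.map b ≠ 0 := by
        intro h0
        rw [h0, zero_mul] at hbQ
        have h2 : (2 - b z : 𝓞 K) = 0 := by
          have h3 := hbQ.symm
          rwa [Ideal.zero_eq_bot, Ideal.span_singleton_eq_bot] at h3
        rw [← hbf, map_eq_zero_iff b b.injective] at h2
        exact hne h2
      rw [h1, ← hbQ, hQ] at hρI
      have h2 : Q.map b = Q := by
        have h3 : (I.map b * I) * Q.map b = (I.map b * I) * Q := by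
          calc (I.map b * I) * Q.map b = I.map b * Q.map b * I := by ring
            _ = I.map b * (I * Q) := hρI
            _ = (I.map b * I) * Q := by ring
        exact mul_left_cancel₀ (mul_ne_zero hbI0 hI0) h3
      have h3 : Q ∣ Ideal.span {(2 - z : 𝓞 K)} := ⟨I, by rw [hQ, mul_comm]⟩
      have h4 : Q ∣ Ideal.span {(2 - b z : 𝓞 K)} := by
        rw [← hbQ, h2]
        exact ⟨_, mul_comm _ _⟩
      have h5 : IsUnit Q := hcopI.isUnit_of_dvd' h3 h4
      rw [Ideal.isUnit_iff] at h5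
      rw [hQ, h5, Ideal.mul_top]

end Pool.Agent.UFG
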