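import Pool.Agent.helper76.UFG.Spec

set_option autoImplicit false

namespace Pool.Agent.UFG

open Finset NumberField nonZeroDivisors Pool.Agent.UF

private theorem CP2_ne {K : Type} [Field K] [NumberField K] {m a : ℕ} {z : 𝓞 K} (hz : z ^ (2 ^ m) = -1)
    (t : ℕ) (ht : Odd t) : ff a z t ≠ 0 := by
  intro h0
  have h1 : z ^ t = (a : 𝓞 K) := (sub_eq_zero.mp h0).symm
  have h2 : (z ^ t) ^ (2 ^ m) = -1 := by
    rw [← pow_mul, mul_comm, pow_mul, hz, ht.neg_one_pow]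
  rw [h1] at h2
  have h3 : ((a ^ 2 ^ m + 1 : ℕ) : 𝓞 K) = 0 := by
    push_cast
    rw [h2]
    ring
  exact (Nat.cast_ne_zero.mpr (Nat.succ_ne_zero _)) h3

theorem CP2 (hBAS : BAS_stmt) (hCO2 : CO2_stmt) (hCLS : CLS_stmt) (hEXP : EXP_stmt)
    (hDSC : DSC_stmt) : CP2_stmt := by
  intro m c r n K L _ _ _ _ _ _ _ z b hz hb hr hbound hn hMn s hs hodd I hI hpr
  have hcyc : Cyc (2 ^ m) z := hBAS m K z hz
  have h32 : 32 * r < 2 ^ m := by
    refine lt_of_le_of_lt ?_ hbound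
    exact Nat.le_self_pow (by omega) _
  have hm1 : 1 ≤ m := by
    by_contra h
    have h0 : m = 0 := by omega
    rw [h0] at h32
    omega
  have hf : ∀ t : ℕ, Odd t → ff (2 ^ (2 ^ c)) z t ≠ 0 := fun t ht => CP2_ne hcyc.1.1 t ht
  have hα : (s.map (ff (2 ^ (2 ^ c)) z)).prod ≠ 0 := by
    rw [Ne, Multiset.prod_eq_zero_iff, Multiset.mem_map]
    rintro ⟨t, ht, h0⟩
    exact hf t (hodd t ht) h0
  obtain ⟨ρ, hρ, hρI⟩ := hDSC m n K L z b hm1 hz hb hn hMn _ I hα hI (fun p hp _ =>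
    hEXP m c K L z b hz hb s hodd (by omega) p hp) hpr
  obtain ⟨s₁, s₂, h12, hass⟩ := hCLS (𝓞 K) b hb.2 (ff (2 ^ (2 ^ c)) z) hf r
    (hCO2 m c r K z hz hr hbound b hb) s hs hodd ρ hρ
  refine ⟨s₂, by rw [← h12]; exact Multiset.le_add_left _ _, ?_⟩
  have h1 : Ideal.span {ρ} = Ideal.span {(s₁.map (ff (2 ^ (2 ^ c)) z)).prod} *
      Ideal.span {b (s₂.map (ff (2 ^ (2 ^ c)) z)).prod} := by
    rw [Ideal.span_singleton_mul_span_singleton, Ideal.span_singleton_eq_span_singleton,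
      map_multiset_prod, Multiset.map_map]
    exact hass
  have h2 : Ideal.span {(s.map (ff (2 ^ (2 ^ c)) z)).prod} =
      Ideal.span {(s₁.map (ff (2 ^ (2 ^ c)) z)).prod} * Ideal.span {(s₂.map (ff (2 ^ (2 ^ c)) z)).prod} := by
    rw [Ideal.span_singleton_mul_span_singleton, ← Multiset.prod_add, ← Multiset.map_add, h12]
  rw [h1, h2] at hρI
  have hne : Ideal.span {(s₁.map (ff (2 ^ (2 ^ c)) z)).prod} ≠ 0 := by
    rw [Ideal.zero_eq_bot, Ne, Ideal.span_singleton_eq_bot, Multiset.prod_eq_zero_iff, Multiset.mem_map]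
    rintro ⟨t, ht, h0⟩
    exact hf t (hodd t (by rw [← h12]; exact Multiset.mem_add.mpr (Or.inl ht))) h0
  apply mul_left_cancel₀ hne
  calc Ideal.span {(s₁.map (ff (2 ^ (2 ^ c)) z)).prod} *
        (I.map b * Ideal.span {(s₂.map (ff (2 ^ (2 ^ c)) z)).prod})
      = I.map b * (Ideal.span {(s₁.map (ff (2 ^ (2 ^ c)) z)).prod} *
        Ideal.span {(s₂.map (ff (2 ^ (2 ^ c)) z)).prod}) := by ring
    _ = Ideal.span {(s₁.map (ff (2 ^ (2 ^ c)) z)).prod} *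
        Ideal.span {b (s₂.map (ff (2 ^ (2 ^ c)) z)).prod} * I := hρI.symm
    _ = _ := by ring

end Pool.Agent.UFG
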