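import Pool.Agent.helper76.UFG.Spec

set_option autoImplicit false

namespace Pool.Agent.UFG

open Finset NumberField nonZeroDivisors Pool.Agent.UF

theorem INJ : INJ_stmt := by
  intro K L _ _ _ _ _ I J h
  exact Ideal.map_injective_of_faithfullyFlat h

end Pool.Agent.UFG
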